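import Pool.Agent.TH336.OL.A3

/-! One line: windows of polylogarithmic length. -/

set_option autoImplicit false

open Complex MeasureTheory Set Filter Topology

namespace Pool.Agent.TH336.OL

open Pool.Agent.W188.GP Pool.Agent.W188.QS Pool.Agent.W108.GPL Pool.Agent.W188.MZ

lemma low_win (p : ℝ) (hp : 2 ≤ p) : ∃ c B T₀ : ℝ, 0 < c ∧ 1 ≤ B ∧ ∀ T U : ℝ, T₀ ≤ T →
    Real.log T ^ B ≤ U → c * (U * Real.log U ^ (p ^ 2 / 4)) ≤ ∫ t in T..(T + U), ZZ t ^ p := by
  obtain ⟨c, hc, B, hB, h⟩ := Pool.Agent.W181.Mom.all_real (p / 2) (by linarith)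
  obtain ⟨T₀, h0⟩ := eventually_atTop.1 h
  refine ⟨c, max B 1, max T₀ (Real.exp 1), hc, le_max_right _ _, fun T U hT hU => ?_⟩
  have h1 : T₀ ≤ T := (le_max_left _ _).trans hT
  have h2 : Real.exp 1 ≤ T := (le_max_right _ _).trans hT
  have h3 : 1 ≤ Real.log T := by
    rw [Real.le_log_iff_exp_le (lt_of_lt_of_le (Real.exp_pos 1) h2)]
    exact h2
  have h4 : Real.log T ^ B ≤ U :=
    (Real.rpow_le_rpow_of_exponent_le h3 (le_max_left _ _)).trans hU
  have h5 := h0 T h1 U h4
  rw [show (p / 2) ^ 2 = p ^ 2 / 4 by ring, show 2 * (p / 2) = p by ring] at h5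
  exact h5

/-- first part -/
theorem win1 (p : ℝ) (hp : 2 ≤ p) : ∃ c B T₀ : ℝ, 0 < c ∧ 1 ≤ B ∧ ∀ T U γ : ℝ, T₀ ≤ T →
    Real.log T ^ B ≤ U → U ≤ T →
    c * (Real.log T * ∫ t in T..(T + U), ZZ t ^ p) ≤
      DD p γ (T - Real.log T) (T + U + Real.log T) := by
  obtain ⟨C1, T1, hC1, h1⟩ := finL p (by linarith)
  obtain ⟨c0, B, T2, hc0, hB, h2⟩ := low_win p hp
  have hev : ∀ᶠ T : ℝ in atTop, 4 * C1 / c0 ≤ Real.log (Real.log T ^ B) ^ (p ^ 2 / 4) ∧
      1 ≤ Real.log T ∧ 0 ≤ Real.log (Real.log T ^ B) := by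
    have e1 : Tendsto (fun T : ℝ => Real.log (Real.log T ^ B)) atTop atTop :=
      Real.tendsto_log_atTop.comp ((tendsto_rpow_atTop (by linarith)).comp Real.tendsto_log_atTop)
    have e2 : Tendsto (fun T : ℝ => Real.log (Real.log T ^ B) ^ (p ^ 2 / 4)) atTop atTop :=
      (tendsto_rpow_atTop (by positivity)).comp e1
    exact (e2.eventually_ge_atTop _).and ((Real.tendsto_log_atTop.eventually_ge_atTop 1).and
      (e1.eventually_ge_atTop 0))
  obtain ⟨T3, h3⟩ := eventually_atTop.1 hev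
  refine ⟨1 / (2 * C1), B, max (max T1 T2) (max T3 1), by positivity, hB,
    fun T U γ hT hU hUT => ?_⟩
  have e1 : T1 ≤ T := ((le_max_left _ _).trans (le_max_left _ _)).trans hT
  have e2 : T2 ≤ T := ((le_max_right _ _).trans (le_max_left _ _)).trans hT
  have e3 : T3 ≤ T := ((le_max_left _ _).trans (le_max_right _ _)).trans hT
  have e4 : 1 ≤ T := ((le_max_right _ _).trans (le_max_right _ _)).trans hT
  obtain ⟨e5, e6, e7⟩ := h3 T e3
  have hU1 : 1 ≤ U := (Real.one_le_rpow e6 (by linarith)).trans hU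
  have hI := h2 T U e2 hU
  have e8 : Real.log (Real.log T ^ B) ^ (p ^ 2 / 4) ≤ Real.log U ^ (p ^ 2 / 4) := by
    apply Real.rpow_le_rpow e7 _ (by positivity)
    exact Real.log_le_log (Real.rpow_pos_of_pos (by linarith) _) hU
  have e9 : 4 * C1 * U ≤ ∫ t in T..(T + U), ZZ t ^ p := by
    refine le_trans ?_ hI
    have e10 : 4 * C1 / c0 ≤ Real.log U ^ (p ^ 2 / 4) := e5.trans e8
    rw [div_le_iff₀ hc0] at e10
    nlinarith
  have e11 := h1 T γ T (T + U) e1 le_rfl (by linarith) (by linarith)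
  set I := ∫ t in T..(T + U), ZZ t ^ p with hId
  set D := DD p γ (T - Real.log T) (T + U + Real.log T) with hD
  have e12 : (T + U - T + 1) * Real.log T ≤ 2 * U * Real.log T := by
    apply mul_le_mul_of_nonneg_right _ (by linarith)
    linarith
  have e13 : C1 * (2 * U * Real.log T) ≤ Real.log T * I / 2 := by
    have := mul_le_mul_of_nonneg_left e9 (by linarith : 0 ≤ Real.log T)
    nlinarith
  have e14 : Real.log T * I ≤ 2 * C1 * D := by
    have := mul_le_mul_of_nonneg_left e12 hC1.le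
    nlinarith
  rw [one_div, inv_mul_le_iff₀ (by positivity)]
  exact e14

lemma ev_win (B : ℝ) (hB : 0 ≤ B) : ∀ᶠ T : ℝ in atTop, 200 ≤ T ∧
    8 * Real.log T ≤ Real.log T ^ (B + 2) ∧
    2 * (2 * Real.log T) ^ B ≤ Real.log T ^ (B + 2) ∧
    2 * Real.log T ≤ T ∧ 8 ≤ Real.log T := by
  have h5 := (Real.isLittleO_pow_log_id_atTop (n := 1)).bound
    (show (0 : ℝ) < 1 / 2 by norm_num)
  filter_upwards [h5, eventually_ge_atTop 200,
    Real.tendsto_log_atTop.eventually_ge_atTop (max 8 (2 * 2 ^ B))] with T h1 h2 h3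
  have h4 : 8 ≤ Real.log T := (le_max_left _ _).trans h3
  have h6 : 2 * 2 ^ B ≤ Real.log T := (le_max_right _ _).trans h3
  rw [pow_one, Real.norm_of_nonneg (by linarith)] at h1
  have h7 : ‖(id T : ℝ)‖ = T := Real.norm_of_nonneg (by simpa using (by linarith : (0 : ℝ) ≤ T))
  rw [h7] at h1
  have hL0 : 0 < Real.log T := by linarith
  have h8 : (1 : ℝ) ≤ Real.log T ^ B := Real.one_le_rpow (by linarith) hB
  have h9 : Real.log T ^ (B + 2) = Real.log T ^ B * Real.log T ^ 2 := by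
    rw [Real.rpow_add hL0]
    norm_num
  refine ⟨h2, ?_, ?_, by linarith, h4⟩
  · rw [h9]
    nlinarith
  · rw [h9, Real.mul_rpow (by norm_num) hL0.le]
    have h10 : 2 * 2 ^ B * Real.log T ^ B ≤ Real.log T * Real.log T ^ B :=
      mul_le_mul_of_nonneg_right h6 (by linarith)
    have h11 : Real.log T * Real.log T ^ B ≤ Real.log T ^ B * Real.log T ^ 2 := by
      rw [mul_comm]
      apply mul_le_mul_of_nonneg_left _ (by linarith)
      nlinarith
    linarith

/-- both parts -/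
theorem win (p : ℝ) (hp : 2 ≤ p) : ∃ c B T₀ : ℝ, 0 < c ∧ 0 < B ∧ ∀ T U γ : ℝ, T₀ ≤ T →
    Real.log T ^ B ≤ U → U ≤ T →
    c * (Real.log T * ∫ t in T..(T + U), ZZ t ^ p) ≤
      DD p γ (T - Real.log T) (T + U + Real.log T) ∧
    c * (U * Real.log T * Real.log U ^ (p ^ 2 / 4)) ≤ DD p γ T (T + U) := by
  obtain ⟨c1, B1, T1, hc1, hB1, h1⟩ := win1 p hp
  obtain ⟨c2, B2, T2, hc2, hB2, h2⟩ := low_win p hp
  set B := max B1 B2 with hBd
  have hB : 1 ≤ B := hB1.trans (le_max_left _ _)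
  obtain ⟨T3, h3⟩ := eventually_atTop.1 (ev_win B (by linarith))
  have he : 0 < p ^ 2 / 4 := by positivity
  set e := p ^ 2 / 4 with hed
  have hc3 : 0 < c1 * (c2 * (1 / 2 * (1 / 2) ^ e)) := by positivity
  refine ⟨min c1 (c1 * (c2 * (1 / 2 * (1 / 2) ^ e))), B + 2, max (max T1 T2) T3,
    lt_min hc1 hc3, by linarith, fun T U γ hT hU hUT => ?_⟩
  have e1 : T1 ≤ T := ((le_max_left _ _).trans (le_max_left _ _)).trans hT
  have e2 : T2 ≤ T := ((le_max_right _ _).trans (le_max_left _ _)).trans hT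
  obtain ⟨e3, e4, e5, e6, e7⟩ := h3 T ((le_max_right _ _).trans hT)
  have hL1 : 1 ≤ Real.log T := by linarith
  have hI0 : 0 ≤ ∫ t in T..(T + U), ZZ t ^ p :=
    intervalIntegral.integral_nonneg (by linarith) fun t _ => ZZp_nonneg p t
  constructor
  · refine le_trans ?_ (h1 T U γ e1 ?_ hUT)
    · exact mul_le_mul_of_nonneg_right (min_le_left _ _) (mul_nonneg (by linarith) hI0)
    · refine le_trans ?_ hU
      apply Real.rpow_le_rpow_of_exponent_le hL1
      linarith [le_max_left B1 B2]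
  · set L := Real.log T with hL
    have hT0 : 0 < T := by linarith
    have hT' : T ≤ T + 2 * L := by linarith
    have hL' : Real.log (T + 2 * L) ≤ 2 * L := by
      have : Real.log (T + 2 * L) ≤ Real.log (T ^ 2) :=
        Real.log_le_log (by linarith) (by nlinarith)
      rw [Real.log_pow] at this
      exact_mod_cast this
    have hLL' : L ≤ Real.log (T + 2 * L) := Real.log_le_log hT0 hT'
    have hU8 : 8 * L ≤ U := e4.trans hU
    have hU' : U / 2 ≤ U - 4 * L := by linarith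
    have hUB : Real.log (T + 2 * L) ^ B ≤ U - 4 * L := by
      have : Real.log (T + 2 * L) ^ B ≤ (2 * L) ^ B :=
        Real.rpow_le_rpow (by linarith) hL' (by linarith)
      linarith
    have hUB1 : Real.log (T + 2 * L) ^ B1 ≤ U - 4 * L :=
      (Real.rpow_le_rpow_of_exponent_le (by linarith) (le_max_left _ _)).trans hUB
    have hUB2 : Real.log (T + 2 * L) ^ B2 ≤ U - 4 * L :=
      (Real.rpow_le_rpow_of_exponent_le (by linarith) (le_max_right _ _)).trans hUB
    have f1 := h1 (T + 2 * L) (U - 4 * L) γ (by linarith) hUB1 (by linarith)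
    have f2 := h2 (T + 2 * L) (U - 4 * L) (by linarith) hUB2
    have f3 : DD p γ (T + 2 * L - Real.log (T + 2 * L)) (T + 2 * L + (U - 4 * L) +
        Real.log (T + 2 * L)) ≤ DD p γ T (T + U) :=
      DD_mono a_tau (by linarith) (by linarith)
    have f4 : 1 / 2 * Real.log U ≤ Real.log (U - 4 * L) := by
      have g1 : Real.log (U / 2) ≤ Real.log (U - 4 * L) :=
        Real.log_le_log (by linarith) hU'
      have g2 : Real.log (U / 2) = Real.log U - Real.log 2 :=
        Real.log_div (by linarith) (by norm_num)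
      have g3 : 2 * Real.log 2 ≤ Real.log U := by
        have : Real.log 4 ≤ Real.log U := Real.log_le_log (by norm_num) (by linarith)
        have g4 : Real.log 4 = 2 * Real.log 2 := by
          rw [show (4 : ℝ) = 2 ^ 2 by norm_num, Real.log_pow]
          norm_num
        linarith
      linarith
    have hlU : 0 ≤ Real.log U := Real.log_nonneg (by linarith)
    have f5 : (1 / 2) ^ e * Real.log U ^ e ≤ Real.log (U - 4 * L) ^ e := by
      rw [← Real.mul_rpow (by norm_num) hlU]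
      exact Real.rpow_le_rpow (by positivity) f4 he.le
    have f6 : U / 2 * ((1 / 2) ^ e * Real.log U ^ e) ≤ (U - 4 * L) * Real.log (U - 4 * L) ^ e :=
      mul_le_mul hU' f5 (by positivity) (by linarith)
    have f7 : c2 * (U / 2 * ((1 / 2) ^ e * Real.log U ^ e)) ≤
        ∫ t in (T + 2 * L)..(T + 2 * L + (U - 4 * L)), ZZ t ^ p :=
      (mul_le_mul_of_nonneg_left f6 hc2.le).trans f2
    have f8 : 0 ≤ c2 * (U / 2 * ((1 / 2) ^ e * Real.log U ^ e)) := by
      have : 0 ≤ Real.log U ^ e := Real.rpow_nonneg hlU _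
      have : 0 ≤ U := by linarith
      positivity
    have f9 : L * (c2 * (U / 2 * ((1 / 2) ^ e * Real.log U ^ e))) ≤
        Real.log (T + 2 * L) * ∫ t in (T + 2 * L)..(T + 2 * L + (U - 4 * L)), ZZ t ^ p :=
      mul_le_mul hLL' f7 f8 (by linarith)
    have f10 := mul_le_mul_of_nonneg_left f9 hc1.le
    have f11 : min c1 (c1 * (c2 * (1 / 2 * (1 / 2) ^ e))) * (U * L * Real.log U ^ e) ≤
        c1 * (c2 * (1 / 2 * (1 / 2) ^ e)) * (U * L * Real.log U ^ e) := by
      apply mul_le_mul_of_nonneg_right (min_le_right _ _)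
      have : 0 ≤ Real.log U ^ e := Real.rpow_nonneg hlU _
      have : 0 ≤ U := by linarith
      positivity
    have f12 : c1 * (c2 * (1 / 2 * (1 / 2) ^ e)) * (U * L * Real.log U ^ e) =
        c1 * (L * (c2 * (U / 2 * ((1 / 2) ^ e * Real.log U ^ e)))) := by ring
    linarith

end Pool.Agent.TH336.OL
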