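import Pool.Agent.TH336.OL.A2
import Pool.Agent.W188.MZ.All
import Pool.Agent.W181.Mom.App3

/-! One line: the points, windows and dyadic sums. -/

set_option autoImplicit false

open Complex MeasureTheory Set Filter Topology

namespace Pool.Agent.TH336.OL

open Pool.Agent.W188.GP Pool.Agent.W188.QS Pool.Agent.W108.GPL Pool.Agent.W188.MZ

/-- the value `ζ(1/2 + it)` -/
noncomputable def z (t : ℝ) : ℂ := riemannZeta (1 / 2 + t * Complex.I)

/-- the heights `t > 100` at which `ζ(1/2 + it)` is a nonzero point of the line `ℝ u` -/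
def Pts (u : ℂ) : Set ℝ := {t | 100 < t ∧ ∃ r : ℝ, r ≠ 0 ∧ z t = r * u}

/-- the discrete moment -/
noncomputable def D (p : ℝ) (u : ℂ) (S T : ℝ) : ℝ := ∑ᶠ t ∈ Pts u ∩ Ioc S T, ‖z t‖ ^ p

lemma z_eq (t : ℝ) : z t = riemannZeta (cp t) := rfl

/-- the number `c` that belongs to the direction `u` -/
noncomputable def cc (u : ℂ) : ℂ := ((u / (‖u‖ : ℂ))⁻¹) ^ 2

lemma cc_norm {u : ℂ} (hu : u ≠ 0) : ‖cc u‖ = 1 := by
  have h : ‖u‖ ≠ 0 := norm_ne_zero_iff.2 hu
  unfold cc
  rw [norm_pow, norm_inv, norm_div, Complex.norm_real, norm_norm, div_self h]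
  simp

lemma ww_iff {c : ℂ} {t : ℝ} (ht : 1 ≤ t) (hz : z t ≠ 0) :
    ww c 1 (cp t) = 1 ↔ c * z t ^ 2 = ((‖z t‖ ^ 2 : ℝ) : ℂ) := by
  have hX : ‖XX (cp t)‖ = 1 := a_line.2.1 t
  have hX0 : XX (cp t) ≠ 0 := by
    intro h
    rw [h] at hX
    simp at hX
  have hfe : (starRingEnd ℂ) (z t) = XX (cp t) * z t := a_line.2.2.1 t ht
  have h2 : ((‖z t‖ ^ 2 : ℝ) : ℂ) = XX (cp t) * z t ^ 2 := by
    have h3 := Complex.mul_conj (z t)
    rw [hfe, Complex.normSq_eq_norm_sq] at h3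
    rw [← h3]; ring
  rw [h2]
  have hz2 : z t ^ 2 ≠ 0 := pow_ne_zero _ hz
  unfold ww
  rw [pow_one]
  constructor
  · intro h
    have h2 : c = XX (cp t) := by
      have := congrArg (fun x => x * XX (cp t)) h
      simp only [one_mul] at this
      rw [mul_assoc, inv_mul_cancel₀ hX0, mul_one] at this
      exact this
    rw [h2]
  · intro h
    have h2 : c = XX (cp t) := mul_right_cancel₀ hz2 h
    rw [h2]
    exact mul_inv_cancel₀ hX0

lemma line_iff {u x : ℂ} (hu : u ≠ 0) (hx : x ≠ 0) :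
    cc u * x ^ 2 = ((‖x‖ ^ 2 : ℝ) : ℂ) ↔ ∃ r : ℝ, r ≠ 0 ∧ x = r * u := by
  have hu0 : ‖u‖ ≠ 0 := norm_ne_zero_iff.2 hu
  have hx0 : ‖x‖ ≠ 0 := norm_ne_zero_iff.2 hx
  have hu1 : (‖u‖ : ℂ) ≠ 0 := by exact_mod_cast hu0
  have hx1 : (‖x‖ : ℂ) ≠ 0 := by exact_mod_cast hx0
  constructor
  · intro h
    have h1 : (x * (‖u‖ : ℂ)) ^ 2 = ((‖x‖ : ℂ) * u) ^ 2 := by
      unfold cc at h
      push_cast at h
      rw [inv_div, div_pow, div_mul_eq_mul_div, div_eq_iff (pow_ne_zero 2 hu)] at h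
      calc (x * (‖u‖ : ℂ)) ^ 2 = (‖u‖ : ℂ) ^ 2 * x ^ 2 := by ring
        _ = (‖x‖ : ℂ) ^ 2 * u ^ 2 := h
        _ = _ := by ring
    rcases sq_eq_sq_iff_eq_or_eq_neg.1 h1 with h2 | h2
    · refine ⟨‖x‖ / ‖u‖, div_ne_zero hx0 hu0, ?_⟩
      push_cast
      field_simp
      exact h2
    · refine ⟨-(‖x‖ / ‖u‖), neg_ne_zero.2 (div_ne_zero hx0 hu0), ?_⟩
      push_cast
      field_simp
      exact h2
  · rintro ⟨r, hr, hxr⟩
    have hxn : ‖x‖ = |r| * ‖u‖ := by
      rw [hxr, norm_mul, Complex.norm_real, Real.norm_eq_abs]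
    have h4 : ((‖x‖ ^ 2 : ℝ) : ℂ) = (r : ℂ) ^ 2 * (‖u‖ : ℂ) ^ 2 := by
      rw [hxn, mul_pow, sq_abs]
      push_cast
      ring
    rw [h4, cc, hxr, inv_div]
    field_simp

lemma Pts_iff {u : ℂ} (hu : u ≠ 0) {t : ℝ} (hz : z t ≠ 0) : t ∈ Pts u ↔ t ∈ PP (cc u) 1 := by
  constructor
  · rintro ⟨h1, h2⟩
    exact ⟨h1, (ww_iff (by linarith) hz).2 ((line_iff hu hz).2 h2)⟩
  · rintro ⟨h1, h2⟩
    exact ⟨h1, (line_iff hu hz).1 ((ww_iff (by linarith) hz).1 h2)⟩

lemma Pts_ne {u : ℂ} (hu : u ≠ 0) {t : ℝ} (h : t ∈ Pts u) : z t ≠ 0 := by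
  obtain ⟨-, r, hr, h2⟩ := h
  rw [h2]
  exact mul_ne_zero (by exact_mod_cast hr) hu

lemma sum_eq {u : ℂ} (hu : u ≠ 0) (U : Set ℝ) (f : ℝ → ℝ) (hf : ∀ t, z t = 0 → f t = 0) :
    ∑ᶠ t ∈ Pts u ∩ U, f t = ∑ᶠ t ∈ PP (cc u) 1 ∩ U, f t := by
  apply finsum_mem_inter_support_eq
  ext t
  simp only [mem_inter_iff, Function.mem_support]
  constructor
  · rintro ⟨⟨h1, h2⟩, h3⟩
    have hz : z t ≠ 0 := fun h => h3 (hf t h)
    exact ⟨⟨(Pts_iff hu hz).1 h1, h2⟩, h3⟩
  · rintro ⟨⟨h1, h2⟩, h3⟩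
    have hz : z t ≠ 0 := fun h => h3 (hf t h)
    exact ⟨⟨(Pts_iff hu hz).2 h1, h2⟩, h3⟩

lemma D_eq {u : ℂ} (hu : u ≠ 0) : ∃ γ : ℝ, ∀ (p : ℝ) (a b : ℝ), 0 < p → 100 ≤ a → a ≤ b →
    D p u a b = DD p γ a b ∧ (Pts u ∩ Ioc a b).Finite := by
  obtain ⟨γ, hγ⟩ := pts_uniform a_tau a_line (cc_norm hu)
  refine ⟨γ, fun p a b hp ha hab => ?_⟩
  obtain ⟨h1, h2⟩ := hγ 1 le_rfl (fun t => ZZ t ^ p) a b ha hab
  rw [pow_one] at h1 h2
  constructor
  · unfold D
    rw [sum_eq hu (Ioc a b) (fun t => ‖z t‖ ^ p) (fun t ht => by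
      rw [ht, norm_zero, Real.zero_rpow hp.ne'])]
    refine h2.trans ?_
    rw [Finset.sum_range_one]
    simp only [Nat.cast_zero, zero_div, add_zero]
    rfl
  · refine h1.subset ?_
    rintro t ⟨h3, h4⟩
    exact ⟨(Pts_iff hu (Pts_ne hu h3)).1 h3, h4⟩

/-- additivity -/
lemma DD_add (p γ : ℝ) {a b c : ℝ} (hab : a ≤ b) (hbc : b ≤ c) :
    DD p γ a c = DD p γ a b + DD p γ b c := by
  have hm : StrictMono vv := a_tau.1
  unfold DD nd
  have h1 : ⌊vv a - γ⌋ ≤ ⌊vv b - γ⌋ := Int.floor_le_floor (by linarith [hm.monotone hab])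
  have h2 : ⌊vv b - γ⌋ ≤ ⌊vv c - γ⌋ := Int.floor_le_floor (by linarith [hm.monotone hbc])
  rw [← Finset.sum_union]
  · congr 1
    ext n
    simp only [Finset.mem_union, Finset.mem_Ioc]
    omega
  · rw [Finset.disjoint_left]
    intro n hn hn'
    rw [Finset.mem_Ioc] at hn hn'
    omega

/-- summation over dyadic intervals -/
lemma dyad_sum {V : ℝ → ℝ} {K m T₂ : ℝ} (hm : 0 ≤ m) (hK : 0 ≤ K) (hT2 : 100 ≤ T₂)
    (hmono : ∀ x y : ℝ, 100 ≤ x → x ≤ y → V x ≤ V y) (h0 : ∀ x : ℝ, 100 ≤ x → 0 ≤ V x)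
    (h : ∀ T : ℝ, T₂ ≤ T → V (8 * T) ≤ V T + K * (T * Real.log T ^ m)) :
    ∃ C : ℝ, ∀ᶠ T : ℝ in atTop, V T ≤ C * (T * Real.log T ^ m) := by
  have hp : ∀ x : ℝ, 100 ≤ x → 0 ≤ x * Real.log x ^ m := fun x hx =>
    mul_nonneg (by linarith) (Real.rpow_nonneg (Real.log_nonneg (by linarith)) _)
  have key : ∀ n : ℕ, ∀ X : ℝ, 100 ≤ X → X ≤ 8 ^ n * (8 * T₂) →
      V X ≤ V (8 * T₂) + K * (X * Real.log X ^ m) := by
    intro n
    induction n with
    | zero =>
      intro X hX1 hX2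
      have h1 := hmono X (8 * T₂) hX1 (by simpa using hX2)
      have h2 := mul_nonneg hK (hp X hX1)
      linarith
    | succ n ih =>
      intro X hX1 hX2
      rcases le_or_gt X (8 * T₂) with h3 | h3
      · have h1 := hmono X (8 * T₂) hX1 h3
        have h2 := mul_nonneg hK (hp X hX1)
        linarith
      · have h4 : T₂ ≤ X / 8 := by linarith
        have h5 := h (X / 8) h4
        have h6 := ih (X / 8) (by linarith) (by rw [pow_succ] at hX2; linarith)
        have h7 : (8 : ℝ) * (X / 8) = X := by ring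
        rw [h7] at h5
        have h8 : X / 8 * Real.log (X / 8) ^ m ≤ X / 8 * Real.log X ^ m := by
          apply mul_le_mul_of_nonneg_left _ (by linarith)
          apply Real.rpow_le_rpow (Real.log_nonneg (by linarith)) _ hm
          exact Real.log_le_log (by linarith) (by linarith)
        have h9 := mul_le_mul_of_nonneg_left h8 hK
        have h10 : K * (X / 8 * Real.log X ^ m) = K * (X * Real.log X ^ m) / 8 := by ring
        have h11 := mul_nonneg hK (hp X hX1)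
        rw [h10] at h9
        linarith
  refine ⟨V (8 * T₂) + K, ?_⟩
  filter_upwards [eventually_ge_atTop 100] with T hT
  obtain ⟨n, hn⟩ := pow_unbounded_of_one_lt T (by norm_num : (1 : ℝ) < 8)
  have h1 := key n T hT (by nlinarith [pow_pos (by norm_num : (0 : ℝ) < 8) n])
  have h2 : 1 ≤ T * Real.log T ^ m := by
    have h3 : 1 ≤ Real.log T := by
      rw [Real.le_log_iff_exp_le (by linarith)]
      have := Real.exp_one_lt_d9
      linarith
    have h4 : (1 : ℝ) ≤ Real.log T ^ m := Real.one_le_rpow h3 hm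
    nlinarith
  have h3 := h0 (8 * T₂) (by linarith)
  nlinarith

lemma ZZp_cont {p : ℝ} (hp : 0 < p) : Continuous fun t : ℝ => ZZ t ^ p :=
  Pool.Agent.W933.GP.ZZ_cont.rpow_const fun _ => Or.inr hp.le

lemma ZZp_nonneg (p t : ℝ) : 0 ≤ ZZ t ^ p := Real.rpow_nonneg (norm_nonneg _) _

lemma log_mul_le (c T : ℝ) (hc : 1 ≤ c) (hT : c ≤ T) : Real.log (c * T) ≤ 2 * Real.log T := by
  rw [Real.log_mul (by linarith) (by linarith)]
  have : Real.log c ≤ Real.log T := Real.log_le_log (by linarith) hT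
  linarith

/-- the equivalence of the upper bounds -/
theorem equiv (p A γ : ℝ) (hp : 1 < p) (hA : 0 ≤ A) :
    (∃ C : ℝ, ∀ᶠ T : ℝ in atTop, ∫ t in (0 : ℝ)..T, ZZ t ^ p ≤ C * (T * Real.log T ^ A)) ↔
    (∃ C : ℝ, ∀ᶠ T : ℝ in atTop, DD p γ 100 T ≤ C * (T * Real.log T ^ (A + 1))) := by
  have hp0 : 0 < p := by linarith
  obtain ⟨C1, T1, hC1, hfin⟩ := a_fin p hp
  have hint : ∀ a b : ℝ, IntervalIntegrable (fun t => ZZ t ^ p) volume a b := fun a b =>
    (ZZp_cont hp0).intervalIntegrable a b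
  have hI0 : ∀ a b : ℝ, a ≤ b → 0 ≤ ∫ t in a..b, ZZ t ^ p := fun a b hab =>
    intervalIntegral.integral_nonneg hab fun t _ => ZZp_nonneg p t
  constructor
  · rintro ⟨C, hC⟩
    obtain ⟨T2, hT2⟩ := eventually_atTop.1 hC
    have hCC : ∀ T, T2 ≤ T → 100 ≤ T → ∫ t in (0 : ℝ)..T, ZZ t ^ p ≤ |C| * (T * Real.log T ^ A) := by
      intro T h1 h2
      refine (hT2 T h1).trans (mul_le_mul_of_nonneg_right (le_abs_self C) ?_)
      exact mul_nonneg (by linarith) (Real.rpow_nonneg (Real.log_nonneg (by linarith)) _)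
    apply dyad_sum (V := fun x => DD p γ 100 x) (K := C1 * (16 * 2 ^ A * |C|)) (m := A + 1)
      (T₂ := max (max T1 T2) 100) (by linarith) (by positivity) (le_max_right _ _)
    · intro x y hx hxy
      exact DD_mono a_tau le_rfl hxy
    · intro x _
      exact DD_nonneg _ _ _ _
    · intro T hT
      have hT100 : 100 ≤ T := (le_max_right _ _).trans hT
      have hTT1 : T1 ≤ T := ((le_max_left _ _).trans (le_max_left _ _)).trans hT
      have hTT2 : T2 ≤ T := ((le_max_right _ _).trans (le_max_left _ _)).trans hT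
      have hL : 0 ≤ Real.log T := Real.log_nonneg (by linarith)
      rw [DD_add p γ (by linarith : (100 : ℝ) ≤ T) (by linarith : T ≤ 8 * T)]
      have h1 := (hfin T γ hTT1).2
      have h2 := hCC (16 * T) (by linarith) (by linarith)
      have h3 : ∫ t in (T / 2)..(16 * T), ZZ t ^ p ≤ ∫ t in (0 : ℝ)..(16 * T), ZZ t ^ p := by
        apply intervalIntegral.integral_mono_interval (by linarith) (by linarith) le_rfl
        · exact Filter.Eventually.of_forall fun t => ZZp_nonneg p t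
        · exact hint _ _
      have h4 : Real.log (16 * T) ^ A ≤ 2 ^ A * Real.log T ^ A := by
        rw [← Real.mul_rpow (by norm_num) hL]
        apply Real.rpow_le_rpow (Real.log_nonneg (by linarith)) _ hA
        exact log_mul_le 16 T (by norm_num) (by linarith)
      have h5 : |C| * (16 * T * Real.log (16 * T) ^ A) ≤ |C| * (16 * T * (2 ^ A * Real.log T ^ A)) := by
        gcongr
      have h6 : Real.log T * ∫ t in (T / 2)..(16 * T), ZZ t ^ p ≤
          Real.log T * (|C| * (16 * T * (2 ^ A * Real.log T ^ A))) :=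
        mul_le_mul_of_nonneg_left ((h3.trans h2).trans h5) hL
      have h7 : C1 * (Real.log T * ∫ t in (T / 2)..(16 * T), ZZ t ^ p) ≤
          C1 * (Real.log T * (|C| * (16 * T * (2 ^ A * Real.log T ^ A)))) :=
        mul_le_mul_of_nonneg_left h6 hC1.le
      have h8 : C1 * (Real.log T * (|C| * (16 * T * (2 ^ A * Real.log T ^ A)))) =
          C1 * (16 * 2 ^ A * |C|) * (T * Real.log T ^ (A + 1)) := by
        rw [Real.rpow_add_one (Real.log_pos (by linarith)).ne']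
        ring
      linarith
  · rintro ⟨C, hC⟩
    obtain ⟨T2, hT2⟩ := eventually_atTop.1 hC
    have hCC : ∀ T, T2 ≤ T → 100 ≤ T → DD p γ 100 T ≤ |C| * (T * Real.log T ^ (A + 1)) := by
      intro T h1 h2
      refine (hT2 T h1).trans (mul_le_mul_of_nonneg_right (le_abs_self C) ?_)
      exact mul_nonneg (by linarith) (Real.rpow_nonneg (Real.log_nonneg (by linarith)) _)
    apply dyad_sum (V := fun x => ∫ t in (0 : ℝ)..x, ZZ t ^ p) (K := C1 * (16 * 2 ^ (A + 1) * |C|))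
      (m := A) (T₂ := max (max T1 T2) 200) hA (by positivity) (by
        have := le_max_right (max T1 T2) 200
        linarith)
    · intro x y hx hxy
      apply intervalIntegral.integral_mono_interval le_rfl (by linarith) hxy
      · exact Filter.Eventually.of_forall fun t => ZZp_nonneg p t
      · exact hint _ _
    · intro x hx
      exact hI0 0 x (by linarith)
    · intro T hT
      have hT100 : 200 ≤ T := (le_max_right _ _).trans hT
      have hTT1 : T1 ≤ T := ((le_max_left _ _).trans (le_max_left _ _)).trans hT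
      have hTT2 : T2 ≤ T := ((le_max_right _ _).trans (le_max_left _ _)).trans hT
      have hL : 0 < Real.log T := Real.log_pos (by linarith)
      have h0 : ∫ t in (0 : ℝ)..(8 * T), ZZ t ^ p =
          (∫ t in (0 : ℝ)..T, ZZ t ^ p) + ∫ t in T..(8 * T), ZZ t ^ p :=
        (intervalIntegral.integral_add_adjacent_intervals (hint _ _) (hint _ _)).symm
      rw [h0]
      have h1 := (hfin T γ hTT1).1
      have h2 := hCC (16 * T) (by linarith) (by linarith)
      have h3 : DD p γ (T / 2) (16 * T) ≤ DD p γ 100 (16 * T) :=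
        DD_mono a_tau (by linarith) le_rfl
      have h4 : Real.log (16 * T) ^ (A + 1) ≤ 2 ^ (A + 1) * Real.log T ^ (A + 1) := by
        rw [← Real.mul_rpow (by norm_num) hL.le]
        apply Real.rpow_le_rpow (Real.log_nonneg (by linarith)) _ (by linarith)
        exact log_mul_le 16 T (by norm_num) (by linarith)
      have h5 : |C| * (16 * T * Real.log (16 * T) ^ (A + 1)) ≤
          |C| * (16 * T * (2 ^ (A + 1) * Real.log T ^ (A + 1))) := by
        gcongr
      have h6 : Real.log T * ∫ t in T..(8 * T), ZZ t ^ p ≤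
          C1 * (|C| * (16 * T * (2 ^ (A + 1) * Real.log T ^ (A + 1)))) :=
        h1.trans (mul_le_mul_of_nonneg_left ((h3.trans h2).trans h5) hC1.le)
      have h7 : C1 * (|C| * (16 * T * (2 ^ (A + 1) * Real.log T ^ (A + 1)))) =
          Real.log T * (C1 * (16 * 2 ^ (A + 1) * |C|) * (T * Real.log T ^ A)) := by
        rw [Real.rpow_add_one hL.ne' A]
        ring
      rw [h7] at h6
      have h8 := le_of_mul_le_mul_left h6 hL
      linarith

end Pool.Agent.TH336.OL
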