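import Pool.Agent.W188.GP.All
import Pool.Agent.W188.QS.Grow

/-! One line, local version: from one line to another line. -/

set_option autoImplicit false

open Complex MeasureTheory Set Filter Topology

namespace Pool.Agent.TH336.OL

open Pool.Agent.W188.GP Pool.Agent.W188.QS Pool.Agent.W108.GPL

theorem ZZ_le_sq {t : ℝ} (ht : 100 ≤ t) : ZZ t ≤ t ^ 2 := Pool.Agent.W188.Mom.Z_le_sq ht

/-- number of nodes -/
theorem card_le (h1 : StTau) (γ a b B : ℝ) (ha : 100 ≤ a) (hab : a ≤ b) (hB : b ≤ B) :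
    ((nd γ a b).card : ℝ) ≤ Real.log B / 6 * (b - a) + 1 := by
  unfold nd
  rw [Int.card_Ioc]
  have h2 := vv_lip h1 a b B ha hab hB
  have hB1 : (100 : ℝ) ≤ B := by linarith
  have hlB : 0 ≤ Real.log B := Real.log_nonneg (by linarith)
  have hpi : (3 : ℝ) < Real.pi := Real.pi_gt_three
  have h3 : vv b - vv a ≤ Real.log B / 6 * (b - a) := by
    refine h2.trans (mul_le_mul_of_nonneg_right ?_ (by linarith))
    exact div_le_div_of_nonneg_left hlB (by norm_num) (by linarith)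
  have h6 : ((⌊vv b - γ⌋ - ⌊vv a - γ⌋ : ℤ) : ℝ) ≤ vv b - vv a + 1 := by
    push_cast
    have e1 := Int.floor_le (vv b - γ)
    have e2 := Int.lt_floor_add_one (vv a - γ)
    linarith
  have h9 : (((⌊vv b - γ⌋ - ⌊vv a - γ⌋).toNat : ℕ) : ℤ) =
      max (⌊vv b - γ⌋ - ⌊vv a - γ⌋) 0 := Int.toNat_eq_max _
  have h10 : (((⌊vv b - γ⌋ - ⌊vv a - γ⌋).toNat : ℕ) : ℝ) =
      max ((⌊vv b - γ⌋ - ⌊vv a - γ⌋ : ℤ) : ℝ) 0 := by
    have := congrArg (fun z : ℤ => (z : ℝ)) h9
    push_cast at this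
    push_cast
    exact this
  rw [h10]
  have h11 : 0 ≤ Real.log B / 6 * (b - a) := mul_nonneg (by positivity) (by linarith)
  exact max_le (by linarith) (by linarith)

theorem DD_mono (h1 : StTau) {p γ a b a' b' : ℝ} (ha : a' ≤ a) (hb : b ≤ b') :
    DD p γ a b ≤ DD p γ a' b' := by
  have hnd : ∀ γ a b : ℝ, ∀ n : ℤ, n ∈ nd γ a b ↔ a < tau (n + γ) ∧ tau (n + γ) ≤ b :=
    h1.2.2.2.2.2.2.2.2.2.2.2.2
  refine Finset.sum_le_sum_of_subset_of_nonneg ?_
    fun _ _ _ => Real.rpow_nonneg (ZZ_nonneg _) _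
  intro n hn
  rw [hnd] at hn ⊢
  exact ⟨by linarith [hn.1], by linarith [hn.2]⟩

theorem sin_div (x : ℝ) (n j : ℤ) (hx0 : 0 < x) (hx1 : x < 1) :
    |Real.sin (Real.pi * x)| / |(n : ℝ) - j - x| ≤ 4 := by
  have hne : (n : ℝ) - j - x ≠ 0 := by
    intro h
    have h2 : x = ((n - j : ℤ) : ℝ) := by
      push_cast
      linarith
    rw [h2] at hx0 hx1
    have h3 : (0 : ℤ) < n - j := by exact_mod_cast hx0
    have h4 : n - j < (1 : ℤ) := by exact_mod_cast hx1
    omega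
  rw [div_le_iff₀ (abs_pos.2 hne)]
  have h1 : |Real.sin (Real.pi * x)| = |Real.sin (Real.pi * (((j - n : ℤ) : ℝ) + x))| :=
    (abs_sin_shift x (j - n)).symm
  rw [h1]
  have h2 : |Real.sin (Real.pi * (((j - n : ℤ) : ℝ) + x))| ≤ |Real.pi * (((j - n : ℤ) : ℝ) + x)| := by
    exact Real.abs_sin_le_abs (x := Real.pi * (((j - n : ℤ) : ℝ) + x))
  refine h2.trans ?_
  rw [abs_mul, abs_of_pos Real.pi_pos]
  have h3 : |((j - n : ℤ) : ℝ) + x| = |(n : ℝ) - j - x| := by
    rw [← abs_neg]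
    congr 1
    push_cast
    ring
  rw [h3]
  exact mul_le_mul_of_nonneg_right Real.pi_le_four (abs_nonneg _)

/-- far nodes are negligible -/
theorem far (h1 : StTau) (γ T L t₀ : ℝ) (hT : 200 ≤ T) (hL : L = Real.log T) (hL12 : 20 ≤ L)
    (S2 : Finset ℤ) (hS2 : S2 ⊆ nd γ (T / 2) (16 * T))
    (hfar : ∀ n ∈ S2, L ≤ |tau (n + γ) - t₀|) :
    ∑ n ∈ S2, ZZ (tau (n + γ)) * Real.exp (-(tau (n + γ) - t₀) ^ 2 / 2) ≤ 1 / 4 := by
  have hT0 : (0 : ℝ) < T := by linarith
  have hnd : ∀ γ a b : ℝ, ∀ n : ℤ, n ∈ nd γ a b ↔ a < tau (n + γ) ∧ tau (n + γ) ≤ b :=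
    h1.2.2.2.2.2.2.2.2.2.2.2.2
  have h2 : ∀ n ∈ S2, ZZ (tau (n + γ)) * Real.exp (-(tau (n + γ) - t₀) ^ 2 / 2) ≤
      256 * T ^ 2 * Real.exp (-L ^ 2 / 2) := by
    intro n hn
    obtain ⟨e1, e2⟩ := (hnd γ (T / 2) (16 * T) n).1 (hS2 hn)
    have e3 : ZZ (tau (n + γ)) ≤ 256 * T ^ 2 := by
      refine (ZZ_le_sq (by linarith)).trans ?_
      have := pow_le_pow_left₀ (by linarith : (0 : ℝ) ≤ tau (n + γ)) e2 2
      nlinarith
    have e4 : Real.exp (-(tau (n + γ) - t₀) ^ 2 / 2) ≤ Real.exp (-L ^ 2 / 2) := by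
      apply Real.exp_le_exp.2
      have e5 := hfar n hn
      have e6 : L ^ 2 ≤ (tau (n + γ) - t₀) ^ 2 := by
        rw [← sq_abs (tau (n + γ) - t₀)]
        exact pow_le_pow_left₀ (by linarith) e5 2
      linarith
    exact mul_le_mul e3 e4 (Real.exp_pos _).le (by positivity)
  have h3 := Finset.sum_le_sum h2
  rw [Finset.sum_const, nsmul_eq_mul] at h3
  have h4 : (S2.card : ℝ) ≤ T ^ 2 := by
    have e1 : (S2.card : ℝ) ≤ ((nd γ (T / 2) (16 * T)).card : ℝ) := by
      exact_mod_cast Finset.card_le_card hS2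
    have e2 := card_le h1 γ (T / 2) (16 * T) (16 * T) (by linarith) (by linarith) le_rfl
    have e3 : Real.log (16 * T) ≤ 2 * L := by
      rw [Real.log_mul (by norm_num) hT0.ne', ← hL]
      have : Real.log 16 ≤ 15 := by
        have := Real.log_le_sub_one_of_pos (show (0 : ℝ) < 16 by norm_num)
        linarith
      linarith
    have e4 : L ≤ T / 8 := by
      have h5 : Real.log T = 2 * Real.log (√T) := by
        rw [Real.log_sqrt hT0.le]
        ring
      have h6 : Real.log (√T) ≤ √T := (Real.log_le_sub_one_of_pos (by positivity)).trans (by linarith)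
      have h7 : √T * √T = T := Real.mul_self_sqrt hT0.le
      have h8 : L = 2 * Real.log (√T) := by rw [hL, h5]
      have h9 : 10 ≤ √T := by linarith
      have h10 : (16 : ℝ) ≤ √T := by
        by_contra hcon
        push Not at hcon
        have : T < 256 := by nlinarith
        have h11 : L < 6 := by
          rw [hL]
          have h12 : Real.log T < Real.log 256 := Real.log_lt_log hT0 this
          have h13 : Real.log 256 < 6 := by
            have : Real.log 256 = 8 * Real.log 2 := by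
              rw [show (256 : ℝ) = 2 ^ 8 by norm_num, Real.log_pow]
              norm_num
            rw [this]
            have := Real.log_two_lt_d9
            linarith
          linarith
        linarith
      nlinarith
    have e5 : Real.log (16 * T) / 6 * (16 * T - T / 2) + 1 ≤ T ^ 2 := by
      have : Real.log (16 * T) / 6 * (16 * T - T / 2) ≤ (2 * L) / 6 * (16 * T - T / 2) := by
        apply mul_le_mul_of_nonneg_right _ (by linarith)
        linarith
      nlinarith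
    linarith
  refine h3.trans ?_
  have h5 : Real.exp (-L ^ 2 / 2) ≤ 1 / (1024 * T ^ 4) := by
    rw [show -L ^ 2 / 2 = -(L ^ 2 / 2) by ring, Real.exp_neg, ← one_div]
    apply one_div_le_one_div_of_le (by positivity)
    have e1 : T = Real.exp L := by rw [hL, Real.exp_log hT0]
    have e2 : (1024 : ℝ) ≤ Real.exp 10 := by
      have := Real.exp_one_gt_d9
      have h6 : Real.exp 10 = Real.exp 1 ^ 10 := by
        rw [← Real.exp_nat_mul]
        norm_num
      rw [h6]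
      calc (1024 : ℝ) = 2 ^ 10 := by norm_num
        _ ≤ Real.exp 1 ^ 10 := pow_le_pow_left₀ (by norm_num) (by linarith) 10
    calc 1024 * T ^ 4 ≤ Real.exp 10 * Real.exp L ^ 4 := by
          rw [← e1]
          exact mul_le_mul_of_nonneg_right e2 (by positivity)
      _ = Real.exp (10 + 4 * L) := by
          rw [Real.exp_add, ← Real.exp_nat_mul]
          norm_num
      _ ≤ Real.exp (L ^ 2 / 2) := by
          apply Real.exp_le_exp.2
          nlinarith
  calc (S2.card : ℝ) * (256 * T ^ 2 * Real.exp (-L ^ 2 / 2))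
      ≤ T ^ 2 * (256 * T ^ 2 * (1 / (1024 * T ^ 4))) := by
        apply mul_le_mul h4 _ (by positivity) (by positivity)
        exact mul_le_mul_of_nonneg_left h5 (by positivity)
    _ = 1 / 4 := by
        field_simp
        norm_num

/-- the main estimate -/
theorem stepL (h1 : StTau) (p h C K0 T L γ x a b : ℝ) (hp : 1 < p) (hC : 1 ≤ C)
    (hK0 : 0 < K0) (hT : 200 ≤ T) (hL : L = Real.log T) (hL20 : 20 ≤ L) (hLT : L ≤ T / 2)
    (hbig : C * (4 * K0) * L ^ 3 ≤ T) (hx0 : 0 < x) (hx1 : x < 1)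
    (hTa : T ≤ a) (hab : a ≤ b) (hb8 : b ≤ 8 * T)
    (hks : ∀ (S : Finset ℤ) (j : ℤ), ∑ n ∈ S, 1 / (1 + ((n : ℝ) - j) ^ 2) ≤ K0)
    (hloc : ∀ t₀ : ℝ, T < t₀ → t₀ ≤ 8 * T → (∀ n : ℤ, vv t₀ ≠ n + γ) →
      ZZ t₀ ≤ ‖(Real.sin (Real.pi * (vv t₀ - γ)) : ℂ) * ∑ n ∈ nd γ (T / 2) (16 * T),
        riemannZeta (cp (tau (n + γ))) * (Real.exp (-(tau (n + γ) - t₀) ^ 2) : ℂ) /
          ((n : ℂ) + γ - vv t₀)‖ +
        C * Real.log T / T * ∑ n ∈ nd γ (T / 2) (16 * T),
          ZZ (tau (n + γ)) * Real.exp (-(tau (n + γ) - t₀) ^ 2 / 2) + C)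
    (hgau : ∀ (S S' : Finset ℤ) (a : ℤ → ℂ) (r r' : ℤ → ℝ),
      ∑ j ∈ S', ‖(Real.sin (Real.pi * x) : ℂ) *
        ∑ n ∈ S, a n * (Real.exp (-(r n - r' j) ^ 2) : ℂ) / ((n : ℂ) - j - x)‖ ^ p ≤
      h * ∑ n ∈ S, ‖a n‖ ^ p) :
    DD p (γ + x) a b ≤
      3 ^ p * ((h + 1) * DD p γ (a - L) (b + L) + (C + 2) ^ p * ((b - a + 1) * L)) := by
  have hp0 : 0 < p := by linarith
  have hT0 : (0 : ℝ) < T := by linarith
  have hL0 : 0 < L := by linarith
  have hvt : ∀ y : ℝ, vv (tau y) = y := h1.2.2.2.2.2.2.1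
  have hnd : ∀ γ a b : ℝ, ∀ n : ℤ, n ∈ nd γ a b ↔ a < tau (n + γ) ∧ tau (n + γ) ≤ b :=
    h1.2.2.2.2.2.2.2.2.2.2.2.2
  set S := nd γ (T / 2) (16 * T) with hS
  set S1 := nd γ (a - L) (b + L) with hS1
  set S2 := S \ S1 with hS2
  have hS1S : S1 ⊆ S := by
    intro n hn
    rw [hS1, hnd] at hn
    rw [hS, hnd]
    exact ⟨by linarith [hn.1], by linarith [hn.2]⟩
  set J := nd (γ + x) a b with hJ
  have hDS : DD p γ (a - L) (b + L) = ∑ n ∈ S1, ZZ (tau (n + γ)) ^ p := rfl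
  have hDJ : DD p (γ + x) a b = ∑ j ∈ J, ZZ (tau (j + (γ + x))) ^ p := by
    show ∑ j ∈ J, ZZ (tau ((j : ℝ) + (γ + x))) ^ p = _
    rfl
  rw [hDJ, hDS]
  set A : ℤ → ℝ := fun j => ‖(Real.sin (Real.pi * x) : ℂ) *
    ∑ n ∈ S1, riemannZeta (cp (tau (n + γ))) *
      (Real.exp (-(tau (n + γ) - tau (j + (γ + x))) ^ 2) : ℂ) / ((n : ℂ) - j - x)‖ with hA
  set κ : ℤ → ℤ → ℝ := fun j n =>
    if j ∈ J ∧ n ∈ S1 then Real.exp (-(tau (n + γ) - tau (j + (γ + x))) ^ 2 / 2) else 0 with hκ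
  set B : ℤ → ℝ := fun j => C * L / T * ∑ n ∈ S1, κ j n * ZZ (tau (n + γ)) with hB
  have hκ0 : ∀ j n, 0 ≤ κ j n := by
    intro j n
    simp only [hκ]
    split_ifs
    · exact (Real.exp_pos _).le
    · exact le_rfl
  have hB0 : ∀ j, 0 ≤ B j := fun j => mul_nonneg (by positivity)
    (Finset.sum_nonneg fun n _ => mul_nonneg (hκ0 j n) (ZZ_nonneg _))
  have hCL : C * L / T ≤ 1 := by
    rw [div_le_one hT0]
    have hK1 : 1 ≤ K0 := by
      have := hks {0} 0
      simpa using this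
    have e1 : L ≤ L ^ 3 := by nlinarith [mul_pos hL0 hL0]
    have e2 : C * L ≤ C * (4 * K0) * L ^ 3 := by
      have : C * 1 ≤ C * (4 * K0) := mul_le_mul_of_nonneg_left (by linarith) (by linarith)
      nlinarith [mul_nonneg (by linarith : (0:ℝ) ≤ C) hL0.le, pow_pos hL0 3]
    linarith
  -- pointwise
  have hpt : ∀ j ∈ J, ZZ (tau (j + (γ + x))) ≤ A j + B j + (C + 2) := by
    intro j hj
    obtain ⟨hj1, hj2⟩ := (hnd (γ + x) a b j).1 hj
    have hv : vv (tau ((j : ℝ) + (γ + x))) = j + (γ + x) := hvt _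
    have hne : ∀ n : ℤ, vv (tau ((j : ℝ) + (γ + x))) ≠ n + γ := by
      intro n hn
      rw [hv] at hn
      have h2 : x = ((n - j : ℤ) : ℝ) := by
        push_cast
        linarith
      rw [h2] at hx0 hx1
      have h3 : (0 : ℤ) < n - j := by exact_mod_cast hx0
      have h4 : n - j < (1 : ℤ) := by exact_mod_cast hx1
      omega
    have h2 := hloc _ (by linarith) (by linarith) hne
    rw [hv] at h2
    have hfar2 := far h1 γ T L (tau ((j : ℝ) + (γ + x))) hT hL hL20 S2 Finset.sdiff_subset (by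
      intro n hn
      have hn2 := (Finset.mem_sdiff.1 hn).2
      by_contra hcon
      push Not at hcon
      rw [abs_lt] at hcon
      exact hn2 ((hnd γ (a - L) (b + L) n).2 ⟨by linarith [hcon.1], by linarith [hcon.2]⟩))
    have hsplit : ∀ f : ℤ → ℂ, ∑ n ∈ S, f n = ∑ n ∈ S1, f n + ∑ n ∈ S2, f n := fun f => by
      rw [add_comm, Finset.sum_sdiff hS1S]
    have hsplitR : ∀ f : ℤ → ℝ, ∑ n ∈ S, f n = ∑ n ∈ S1, f n + ∑ n ∈ S2, f n := fun f => by
      rw [add_comm, Finset.sum_sdiff hS1S]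
    have h3 : ‖(Real.sin (Real.pi * ((j : ℝ) + (γ + x) - γ)) : ℂ) * ∑ n ∈ S,
        riemannZeta (cp (tau (n + γ))) *
          (Real.exp (-(tau (n + γ) - tau ((j : ℝ) + (γ + x))) ^ 2) : ℂ) /
          ((n : ℂ) + γ - (((j : ℝ) + (γ + x) : ℝ) : ℂ))‖ ≤ A j + 1 := by
      rw [hsplit, mul_add]
      refine (norm_add_le _ _).trans ?_
      apply add_le_add
      · apply le_of_eq
        simp only [hA]
        rw [norm_mul, norm_mul]
        congr 1
        · rw [Complex.norm_real, Complex.norm_real, Real.norm_eq_abs, Real.norm_eq_abs,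
            show (j : ℝ) + (γ + x) - γ = (j : ℝ) + x by ring, abs_sin_shift]
        · congr 1
          refine Finset.sum_congr rfl fun n _ => ?_
          congr 1
          push_cast
          ring
      · rw [norm_mul, Complex.norm_real, Real.norm_eq_abs,
          show (j : ℝ) + (γ + x) - γ = (j : ℝ) + x by ring, abs_sin_shift]
        have h4 : |Real.sin (Real.pi * x)| * ‖∑ n ∈ S2, riemannZeta (cp (tau (n + γ))) *
            (Real.exp (-(tau (n + γ) - tau ((j : ℝ) + (γ + x))) ^ 2) : ℂ) /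
            ((n : ℂ) + γ - (((j : ℝ) + (γ + x) : ℝ) : ℂ))‖ ≤
            ∑ n ∈ S2, 4 * (ZZ (tau (n + γ)) *
              Real.exp (-(tau (n + γ) - tau ((j : ℝ) + (γ + x))) ^ 2 / 2)) := by
          refine (mul_le_mul_of_nonneg_left (norm_sum_le _ _) (abs_nonneg _)).trans ?_
          rw [Finset.mul_sum]
          refine Finset.sum_le_sum fun n _ => ?_
          have e1 : (n : ℂ) + γ - (((j : ℝ) + (γ + x) : ℝ) : ℂ) = (((n : ℝ) - j - x : ℝ) : ℂ) := by
            push_cast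
            ring
          rw [e1, norm_div, norm_mul, Complex.norm_real, Complex.norm_real, Real.norm_eq_abs,
            Real.norm_eq_abs, abs_of_pos (Real.exp_pos _)]
          have e2 := sin_div x n j hx0 hx1
          have e3 : Real.exp (-(tau (n + γ) - tau ((j : ℝ) + (γ + x))) ^ 2) ≤
              Real.exp (-(tau (n + γ) - tau ((j : ℝ) + (γ + x))) ^ 2 / 2) := by
            apply Real.exp_le_exp.2
            nlinarith [sq_nonneg (tau (n + γ) - tau ((j : ℝ) + (γ + x)))]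
          have e4 : 0 ≤ ZZ (tau (n + γ)) := ZZ_nonneg _
          calc |Real.sin (Real.pi * x)| * (‖riemannZeta (cp (tau (n + γ)))‖ *
                Real.exp (-(tau (n + γ) - tau ((j : ℝ) + (γ + x))) ^ 2) / |(n : ℝ) - j - x|)
              = (|Real.sin (Real.pi * x)| / |(n : ℝ) - j - x|) * (ZZ (tau (n + γ)) *
                Real.exp (-(tau (n + γ) - tau ((j : ℝ) + (γ + x))) ^ 2)) := by
                  unfold ZZ
                  ring
            _ ≤ 4 * (ZZ (tau (n + γ)) *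
                Real.exp (-(tau (n + γ) - tau ((j : ℝ) + (γ + x))) ^ 2 / 2)) := by
                  apply mul_le_mul e2 _ (by positivity) (by norm_num)
                  exact mul_le_mul_of_nonneg_left e3 e4
        refine h4.trans ?_
        rw [← Finset.mul_sum]
        linarith
    have h4 : C * Real.log T / T * ∑ n ∈ S,
        ZZ (tau (n + γ)) * Real.exp (-(tau (n + γ) - tau ((j : ℝ) + (γ + x))) ^ 2 / 2) ≤ B j + 1 := by
      rw [hsplitR, mul_add]
      apply add_le_add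
      · apply le_of_eq
        simp only [hB]
        rw [← hL]
        congr 1
        refine Finset.sum_congr rfl fun n hn => ?_
        simp only [hκ]
        rw [if_pos ⟨hj, hn⟩, mul_comm]
      · rw [← hL]
        have e1 : 0 ≤ ∑ n ∈ S2, ZZ (tau (n + γ)) *
            Real.exp (-(tau (n + γ) - tau ((j : ℝ) + (γ + x))) ^ 2 / 2) :=
          Finset.sum_nonneg fun n _ => mul_nonneg (ZZ_nonneg _) (Real.exp_pos _).le
        have e2 := mul_le_mul_of_nonneg_right hCL e1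
        linarith
    linarith
  -- kernel bound
  have hker : ∀ j n, κ j n ≤ 4 * L ^ 2 * (1 / (1 + ((n : ℝ) - j) ^ 2)) := by
    intro j n
    simp only [hκ]
    split_ifs with hjn
    · obtain ⟨hj1, hj2⟩ := (hnd (γ + x) a b j).1 hjn.1
      obtain ⟨hn1, hn2⟩ := (hnd γ (a - L) (b + L) n).1 hjn.2
      refine ker_bound L x _ n j (by linarith) hx0.le hx1.le ?_
      have h2 := vv_lip_abs h1 (tau ((j : ℝ) + (γ + x))) (tau ((n : ℝ) + γ)) (16 * T)
        (by linarith) (by linarith) (by linarith) (by linarith)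
      rw [hvt, hvt] at h2
      have h3 : (n : ℝ) + γ - ((j : ℝ) + (γ + x)) = (n : ℝ) - j - x := by ring
      rw [h3] at h2
      refine h2.trans (mul_le_mul_of_nonneg_right ?_ (abs_nonneg _))
      have hpi : (3 : ℝ) < Real.pi := Real.pi_gt_three
      rw [div_le_iff₀ (by positivity), Real.log_mul (by norm_num) hT0.ne', ← hL]
      have h4 : Real.log 16 ≤ 15 := by
        have := Real.log_le_sub_one_of_pos (show (0 : ℝ) < 16 by norm_num)
        linarith
      nlinarith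
    · positivity
  have hK : 0 < 4 * L ^ 2 * K0 := by positivity
  have hrow : ∀ j ∈ J, ∑ n ∈ S1, κ j n ≤ 4 * L ^ 2 * K0 := by
    intro j _
    calc ∑ n ∈ S1, κ j n ≤ ∑ n ∈ S1, 4 * L ^ 2 * (1 / (1 + ((n : ℝ) - j) ^ 2)) :=
          Finset.sum_le_sum fun n _ => hker j n
      _ = 4 * L ^ 2 * ∑ n ∈ S1, 1 / (1 + ((n : ℝ) - j) ^ 2) := by rw [Finset.mul_sum]
      _ ≤ _ := mul_le_mul_of_nonneg_left (hks S1 j) (by positivity)
  have hcolm : ∀ n ∈ S1, ∑ j ∈ J, κ j n ≤ 4 * L ^ 2 * K0 := by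
    intro n _
    calc ∑ j ∈ J, κ j n ≤ ∑ j ∈ J, 4 * L ^ 2 * (1 / (1 + ((j : ℝ) - n) ^ 2)) := by
          refine Finset.sum_le_sum fun j _ => (hker j n).trans (le_of_eq ?_)
          congr 3
          ring
      _ = 4 * L ^ 2 * ∑ j ∈ J, 1 / (1 + ((j : ℝ) - n) ^ 2) := by rw [Finset.mul_sum]
      _ ≤ _ := mul_le_mul_of_nonneg_left (hks J n) (by positivity)
  have hsch := schur p hp.le S1 J κ hκ0 (fun n => ZZ (tau (n + γ))) (fun n => ZZ_nonneg _)
    (4 * L ^ 2 * K0) hK hrow hcolm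
  have hsumB : ∑ j ∈ J, B j ^ p ≤ ∑ n ∈ S1, ZZ (tau (n + γ)) ^ p := by
    have hc0 : 0 ≤ C * L / T := by positivity
    have h2 : ∀ j, B j ^ p = (C * L / T) ^ p * (∑ n ∈ S1, κ j n * ZZ (tau (n + γ))) ^ p := by
      intro j
      simp only [hB]
      exact Real.mul_rpow hc0 (Finset.sum_nonneg fun n _ => mul_nonneg (hκ0 j n) (ZZ_nonneg _))
    rw [Finset.sum_congr rfl fun j _ => h2 j, ← Finset.mul_sum]
    calc (C * L / T) ^ p * ∑ j ∈ J, (∑ n ∈ S1, κ j n * ZZ (tau (n + γ))) ^ p ≤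
        (C * L / T) ^ p * ((4 * L ^ 2 * K0) ^ p * ∑ n ∈ S1, ZZ (tau (n + γ)) ^ p) :=
          mul_le_mul_of_nonneg_left hsch (Real.rpow_nonneg hc0 _)
      _ = (C * L / T * (4 * L ^ 2 * K0)) ^ p * ∑ n ∈ S1, ZZ (tau (n + γ)) ^ p := by
          rw [Real.mul_rpow hc0 hK.le]
          ring
      _ ≤ 1 * ∑ n ∈ S1, ZZ (tau (n + γ)) ^ p := by
          refine mul_le_mul_of_nonneg_right ?_
            (Finset.sum_nonneg fun n _ => Real.rpow_nonneg (ZZ_nonneg _) p)
          refine Real.rpow_le_one (by positivity) ?_ hp0.le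
          rw [div_mul_eq_mul_div, div_le_one hT0]
          calc C * L * (4 * L ^ 2 * K0) = C * (4 * K0) * L ^ 3 := by ring
            _ ≤ T := hbig
      _ = _ := one_mul _
  have hsumA : ∑ j ∈ J, A j ^ p ≤ h * ∑ n ∈ S1, ZZ (tau (n + γ)) ^ p :=
    hgau S1 J (fun n => riemannZeta (cp (tau (n + γ)))) (fun n => tau (n + γ))
      (fun j => tau (j + (γ + x)))
  have hcard : ((nd (γ + x) a b).card : ℝ) ≤ (b - a + 1) * L := by
    have e1 := card_le h1 (γ + x) a b (8 * T) (by linarith) hab hb8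
    have e2 : Real.log (8 * T) ≤ 2 * L := by
      rw [Real.log_mul (by norm_num) hT0.ne', ← hL]
      have : Real.log 8 ≤ 7 := by
        have := Real.log_le_sub_one_of_pos (show (0 : ℝ) < 8 by norm_num)
        linarith
      linarith
    have e3 : Real.log (8 * T) / 6 * (b - a) ≤ L * (b - a) := by
      apply mul_le_mul_of_nonneg_right _ (by linarith)
      linarith
    nlinarith
  have hsumC : ∑ j ∈ J, (C + 2) ^ p ≤ (C + 2) ^ p * ((b - a + 1) * L) := by
    rw [Finset.sum_const, nsmul_eq_mul, mul_comm]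
    exact mul_le_mul_of_nonneg_left hcard (Real.rpow_nonneg (by linarith) _)
  calc ∑ j ∈ J, ZZ (tau (j + (γ + x))) ^ p ≤ ∑ j ∈ J, 3 ^ p * (A j ^ p + B j ^ p + (C + 2) ^ p) := by
        refine Finset.sum_le_sum fun j hj => ?_
        refine (Real.rpow_le_rpow (ZZ_nonneg _) (hpt j hj) hp0.le).trans ?_
        exact three p _ _ _ hp0 (norm_nonneg _) (hB0 j) (by linarith)
    _ = 3 ^ p * (∑ j ∈ J, A j ^ p + ∑ j ∈ J, B j ^ p + ∑ j ∈ J, (C + 2) ^ p) := by
        rw [← Finset.mul_sum, Finset.sum_add_distrib, Finset.sum_add_distrib]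
    _ ≤ 3 ^ p * ((h + 1) * ∑ n ∈ S1, ZZ (tau (n + γ)) ^ p + (C + 2) ^ p * ((b - a + 1) * L)) := by
        refine mul_le_mul_of_nonneg_left ?_ (by positivity)
        linarith

end Pool.Agent.TH336.OL
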