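import Pool.Agent.TH336.OL.A1

/-! One line, local version: comparison of the continuous and the discrete moments. -/

set_option autoImplicit false

open Complex MeasureTheory Set Filter Topology

namespace Pool.Agent.TH336.OL

open Pool.Agent.W188.GP Pool.Agent.W188.QS Pool.Agent.W108.GPL

theorem ev_L (C K0 : ℝ) : ∀ᶠ T : ℝ in atTop, 200 ≤ T ∧ 20 ≤ Real.log T ∧ Real.log T ≤ T / 2 ∧
    C * (4 * K0) * Real.log T ^ 3 ≤ T := by
  have h4 := (Real.isLittleO_pow_log_id_atTop (n := 3)).bound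
    (show (0 : ℝ) < (|C * (4 * K0)| + 1)⁻¹ by positivity)
  have h5 := (Real.isLittleO_pow_log_id_atTop (n := 1)).bound
    (show (0 : ℝ) < 1 / 2 by norm_num)
  filter_upwards [h4, h5, eventually_ge_atTop 200, Real.tendsto_log_atTop.eventually_ge_atTop 20]
    with T hT hT' hT1 hT2
  have h0 : (0 : ℝ) ≤ T := by linarith
  rw [Real.norm_of_nonneg (by positivity)] at hT
  rw [pow_one, Real.norm_of_nonneg (by linarith)] at hT'
  have h6 : ‖(id T : ℝ)‖ = T := Real.norm_of_nonneg (by simpa using h0)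
  rw [h6] at hT hT'
  refine ⟨hT1, hT2, by linarith, ?_⟩
  have h7 := mul_le_mul_of_nonneg_left hT (show (0 : ℝ) ≤ |C * (4 * K0)| + 1 by positivity)
  have h8 : |C * (4 * K0)| + 1 ≠ 0 := by positivity
  rw [mul_inv_cancel_left₀ h8] at h7
  have h9 : C * (4 * K0) * Real.log T ^ 3 ≤ (|C * (4 * K0)| + 1) * Real.log T ^ 3 := by
    apply mul_le_mul_of_nonneg_right _ (by positivity)
    linarith [le_abs_self (C * (4 * K0))]
  linarith

/-- from one line to another line, in every interval -/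
theorem llL (p : ℝ) (hp : 1 < p) : ∃ C T₀ : ℝ, 0 < C ∧ ∀ T γ γ' a b : ℝ, T₀ ≤ T → T ≤ a → a ≤ b →
    b ≤ 8 * T → DD p γ' a b ≤
      C * (DD p γ (a - Real.log T) (b + Real.log T) + (b - a + 1) * Real.log T) := by
  have h1 : StTau := a_tau
  obtain ⟨C1, T1, hloc⟩ := a_locb
  obtain ⟨h, hh, hgau⟩ := a_gau p hp
  obtain ⟨K0, hK0, hks⟩ := ksum
  set C : ℝ := |C1| + 1 with hCd
  have hC1 : C1 ≤ C := by
    have := le_abs_self C1
    linarith
  have hC : 1 ≤ C := by
    have := abs_nonneg C1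
    linarith
  obtain ⟨T2, hT2⟩ := eventually_atTop.1 (ev_L C K0)
  refine ⟨3 ^ p * ((h + 1) + (C + 2) ^ p) + 1, max T1 T2, by positivity,
    fun T γ γ' a b hT hTa hab hb => ?_⟩
  have hTT1 : T1 ≤ T := le_trans (le_max_left _ _) hT
  obtain ⟨hT200, hL20, hLT, hbig⟩ := hT2 T (le_trans (le_max_right _ _) hT)
  have hT0 : (0 : ℝ) < T := by linarith
  have hTL : 0 ≤ (b - a + 1) * Real.log T := mul_nonneg (by linarith) (by linarith)
  have hD0 : 0 ≤ DD p γ (a - Real.log T) (b + Real.log T) := DD_nonneg _ _ _ _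
  have hCp : 0 ≤ (C + 2) ^ p := Real.rpow_nonneg (by linarith) _
  have h3p : (0 : ℝ) < 3 ^ p := by positivity
  -- reduction to a fractional shift
  set x : ℝ := Int.fract (γ' - γ) with hx
  have hγ' : γ' = (γ + x) + (⌊γ' - γ⌋ : ℤ) := by
    have := Int.fract_add_floor (γ' - γ)
    rw [← hx] at this
    linarith
  rw [hγ', DD_shift]
  have hx0 : 0 ≤ x := Int.fract_nonneg _
  have hx1 : x < 1 := Int.fract_lt_one _
  rcases hx0.eq_or_lt with h0 | h0
  · rw [← h0, add_zero]
    have hsub : DD p γ a b ≤ DD p γ (a - Real.log T) (b + Real.log T) :=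
      DD_mono h1 (by linarith) (by linarith)
    have e1 : 0 ≤ 3 ^ p * ((h + 1) + (C + 2) ^ p) := by positivity
    nlinarith [mul_nonneg e1 (add_nonneg hD0 hTL)]
  · have hloc' : ∀ t₀ : ℝ, T < t₀ → t₀ ≤ 8 * T → (∀ n : ℤ, vv t₀ ≠ n + γ) →
        ZZ t₀ ≤ ‖(Real.sin (Real.pi * (vv t₀ - γ)) : ℂ) * ∑ n ∈ nd γ (T / 2) (16 * T),
          riemannZeta (cp (tau (n + γ))) * (Real.exp (-(tau (n + γ) - t₀) ^ 2) : ℂ) /
            ((n : ℂ) + γ - vv t₀)‖ +
          C * Real.log T / T * ∑ n ∈ nd γ (T / 2) (16 * T),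
            ZZ (tau (n + γ)) * Real.exp (-(tau (n + γ) - t₀) ^ 2 / 2) + C := by
      intro t₀ ht1 ht2 ht3
      refine (hloc T γ t₀ hTT1 ht1 ht2 ht3).trans ?_
      have e1 : 0 ≤ ∑ n ∈ nd γ (T / 2) (16 * T),
          ZZ (tau (n + γ)) * Real.exp (-(tau (n + γ) - t₀) ^ 2 / 2) :=
        Finset.sum_nonneg fun n _ => mul_nonneg (ZZ_nonneg _) (Real.exp_pos _).le
      have e2 : C1 * Real.log T / T ≤ C * Real.log T / T := by
        refine div_le_div_of_nonneg_right ?_ hT0.le
        exact mul_le_mul_of_nonneg_right hC1 (by linarith)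
      have e3 := mul_le_mul_of_nonneg_right e2 e1
      linarith
    have hst := stepL h1 p h C K0 T (Real.log T) γ x a b hp hC hK0 hT200 rfl hL20 hLT hbig h0 hx1
      hTa hab hb hks hloc' (fun S S' a r r' => hgau x h0 hx1 S S' a r r')
    refine hst.trans ?_
    have e1 : 0 ≤ (C + 2) ^ p * DD p γ (a - Real.log T) (b + Real.log T) := by positivity
    have e2 : 0 ≤ (h + 1) * ((b - a + 1) * Real.log T) := by positivity
    have e3 : (h + 1) * DD p γ (a - Real.log T) (b + Real.log T) +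
        (C + 2) ^ p * ((b - a + 1) * Real.log T) ≤
        ((h + 1) + (C + 2) ^ p) *
          (DD p γ (a - Real.log T) (b + Real.log T) + (b - a + 1) * Real.log T) := by nlinarith
    have e4 := mul_le_mul_of_nonneg_left e3 h3p.le
    nlinarith

/-- the integral in terms of one line, in every interval -/
theorem finL (p : ℝ) (hp : 1 < p) : ∃ C T₀ : ℝ, 0 < C ∧ ∀ T γ a b : ℝ, T₀ ≤ T → T ≤ a → a ≤ b →
    b ≤ 8 * T → Real.log T * ∫ t in a..b, ZZ t ^ p ≤
      C * (DD p γ (a - Real.log T) (b + Real.log T) + (b - a + 1) * Real.log T) := by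
  obtain ⟨C0, T1, hC0, hLL⟩ := llL p hp
  obtain ⟨-, -, hlc, hl1, -, -, -, -, -, -, -, hlam, -⟩ := a_tau
  have hfc : Continuous fun t => ZZ t ^ p :=
    Pool.Agent.W933.GP.ZZ_cont.rpow_const fun _ => Or.inr (by linarith)
  have hf0 : ∀ t, 0 ≤ ZZ t ^ p := fun t => Real.rpow_nonneg (norm_nonneg _) _
  have hgc : Continuous fun t => ZZ t ^ p * lamE t := hfc.mul hlc
  have hpi := Real.pi_pos
  have hev : ∀ᶠ T : ℝ in atTop, 200 ≤ T ∧ T1 ≤ T ∧
      (2 * (Real.log (2 * Real.pi) + 1) ≤ Real.log T) :=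
    (eventually_ge_atTop 200).and ((eventually_ge_atTop T1).and
      (Real.tendsto_log_atTop.eventually_ge_atTop _))
  obtain ⟨T0, hT0⟩ := eventually_atTop.1 hev
  refine ⟨4 * Real.pi * C0, T0, by positivity, fun T γ a b hT hTa hab hb => ?_⟩
  obtain ⟨hT200, hTT1, hlog⟩ := hT0 T hT
  have hT00 : 0 < T := by linarith
  have hLpos : 0 < Real.log T := Real.log_pos (by linarith)
  have hlow : ∀ t, T ≤ t → Real.log T ≤ 2 * lamE t := by
    intro t ht
    have h50 := (Pool.Agent.W338.QS.qs_line.1 t (by linarith)).2.1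
    have h5 := (abs_le.1 h50).1
    rw [(hlam t (by linarith)).1]
    have h6 : Real.log (t / (2 * Real.pi)) = Real.log t - Real.log (2 * Real.pi) :=
      Real.log_div (by linarith) (by positivity)
    have h7 : Real.log T ≤ Real.log t := Real.log_le_log hT00 ht
    have h8 : 14 / t ≤ 1 := by
      rw [div_le_one (by linarith)]
      linarith
    linarith
  have hint : ∀ a b : ℝ, IntervalIntegrable (fun t => ZZ t ^ p) volume a b := fun a b =>
    hfc.intervalIntegrable a b
  have hint' : ∀ a b : ℝ, IntervalIntegrable (fun t => ZZ t ^ p * lamE t) volume a b := fun a b =>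
    hgc.intervalIntegrable a b
  obtain ⟨hi, he⟩ := (Pool.Agent.W903.GP.CO.gp_co a_tau) (fun t => ZZ t ^ p) a b hfc
    (by linarith) hab
  set R := DD p γ (a - Real.log T) (b + Real.log T) + (b - a + 1) * Real.log T with hR
  have hle : ∫ γ' in (0 : ℝ)..1, DD p γ' a b ≤ C0 * R := by
    have h5 : ∫ γ' in (0 : ℝ)..1, DD p γ' a b ≤ ∫ _ in (0 : ℝ)..1, C0 * R :=
      intervalIntegral.integral_mono_on zero_le_one hi intervalIntegrable_const
        fun γ' _ => hLL T γ γ' a b hTT1 hTa hab hb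
    simpa using h5
  have he' : ∫ γ' in (0 : ℝ)..1, DD p γ' a b =
      1 / (2 * Real.pi) * ∫ t in a..b, ZZ t ^ p * lamE t := he
  have h6 : Real.log T * ∫ t in a..b, ZZ t ^ p ≤ 2 * ∫ t in a..b, ZZ t ^ p * lamE t := by
    rw [← intervalIntegral.integral_const_mul, ← intervalIntegral.integral_const_mul]
    apply intervalIntegral.integral_mono_on hab ((hint _ _).const_mul _)
      ((hint' _ _).const_mul _)
    intro t ht
    have := hlow t (by linarith [ht.1])
    nlinarith [hf0 t]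
  have h7 : ∫ t in a..b, ZZ t ^ p * lamE t =
      2 * Real.pi * ∫ γ' in (0 : ℝ)..1, DD p γ' a b := by
    rw [he']
    field_simp
  rw [h7] at h6
  have h8 := mul_le_mul_of_nonneg_left hle (by positivity : (0 : ℝ) ≤ 4 * Real.pi)
  linarith

end Pool.Agent.TH336.OL
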